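import Pool.Agent.MP_66cee2_co.AN.Spec
import Pool.Agent.MP_66cee2_co.D.CaseB

/-
Either the isometric pieces contain a fork, or they contain almost no unit pair.
-/

namespace Pool.Agent.MP_66cee2_co.AN

open MeasureTheory Set Filter Metric Topology Polynomial Pool.Agent.MP_66cee2_co.X
  Pool.Agent.MP_66cee2_co.XI Pool.Agent.MP_66cee2_co.D Pool.Agent.MP_66cee2_co.D.CaseBx

theorem sCaseP : SCaseP := by
  intro d n P u hd hP hu
  have hU : UF u := XI.JetField.uf hu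
  have cl : ∀ D K j, IsClosed (Pc u D K j (Cl2 j)) := fun D K j => by
    have := isClosed_pc sClo u D K j 3 0
    rwa [cl_three] at this
  by_cases h : ∀ (D j : ℕ) (r : ℝ), 1 ≤ j → 0 < r →
      ∀ x ∈ Den (Pc u D (4 * D + 1) j (Cl2 j)) r, ∀ x₁ ∈ Den (Pc u D (4 * D + 1) j (Cl2 j)) r,
      ∀ x₂ ∈ Den (Pc u D (4 * D + 1) j (Cl2 j)) r, ‖x₁ - x‖ = 1 → ‖x₂ - x‖ = 1 → x₁ ≠ x₂ →
      x₁ - x = -(x₂ - x)
  · refine Or.inr fun w hw => ?_
    have a1 : ∀ᵐ x : E d, ∀ D j k : ℕ, 1 ≤ j →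
        ¬ (x ∈ Den (Pc u D (4 * D + 1) j (Cl2 j)) (1 / ((k : ℝ) + 1)) ∧
          x + w ∈ Den (Pc u D (4 * D + 1) j (Cl2 j)) (1 / ((k : ℝ) + 1))) := by
      simp only [ae_all_iff]
      intro D j k hj
      exact pair_null hd ((sDen d _).1 (cl D _ j) _).measurableSet
        (h D j _ hj Nat.one_div_pos_of_nat) w hw
    have a2 : ∀ᵐ x : E d, ∀ D j : ℕ, x ∈ Pc u D (4 * D + 1) j (Cl2 j) →
        ∃ r > 0, x ∈ Den (Pc u D (4 * D + 1) j (Cl2 j)) r := by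
      simp only [ae_all_iff]
      intro D j
      exact (sDen d _).2 (cl D _ j).measurableSet
    have a3 := (measurePreserving_add_right volume w).quasiMeasurePreserving.ae a2
    filter_upwards [a1, a2, a3] with x h1 h2 h3 D j j1 ⟨f1, f2⟩
    obtain ⟨r, r0, g1⟩ := h2 D j f1
    obtain ⟨r', r0', g2⟩ := h3 D j f2
    obtain ⟨k, hk⟩ := exists_nat_one_div_lt (lt_min r0 r0')
    exact h1 D j k j1 ⟨den_anti (hk.le.trans (min_le_left _ _)) g1,
      den_anti (hk.le.trans (min_le_right _ _)) g2⟩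
  · push Not at h
    obtain ⟨D, j, r, j1, r0, x, hx, x₁, h1, x₂, h2, n1, n2, n3, n4⟩ := h
    obtain ⟨T, c, hT⟩ := posI d n u hd hU D _ j r le_rfl j1 r0 x hx x₁ h1 x₂ h2 n1 n2 n3 n4
    refine Or.inl ⟨aff T c, fun x y => ?_, endI d n hd P u hP hu T c hT⟩
    simp only [aff, add_sub_add_right_eq_sub, ← map_sub, LinearIsometry.norm_map]

end Pool.Agent.MP_66cee2_co.AN
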