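import Pool.Agent.MP_66cee2_co.AN.Spec
import Pool.Agent.MP_66cee2_co.XI.Clo

/-
Pieces are closed, jointly in the direction.
-/

namespace Pool.Agent.MP_66cee2_co.AN

open MeasureTheory Set Filter Metric Topology Polynomial Pool.Agent.MP_66cee2_co.X
  Pool.Agent.MP_66cee2_co.XI Pool.Agent.MP_66cee2_co.D

open CloA in
theorem closed_Phi {X : Type} [TopologicalSpace X] {d n D : ℕ} {w : X → E d}
    {Q : X → Ix n → MP d} (h : ∀ a, CloA.Fam D fun x => Q x a) (hw : Continuous w) (c : Io n)
    (j : ℕ) : IsClosed {x | Phi c j (w x) (Q x)} := by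
  have hc : ∀ a k, Continuous fun x => co (Q x a) (w x) k := fun a k => (h a).cco hw k
  have hd : ∀ a m, IsClosed {x | DegL (Q x a) (w x) m} := fun a m => (h a).degL hw m
  have hT : ∀ m a, IsClosed {x | Top m a j (w x) (Q x)} := fun m a =>
    closed_and (closed_all fun i => hd _ m) (isClosed_le (by fun_prop) (by fun_prop))
  rcases c with m | p | p
  · exact closed_and (closed_GC h) (closed_and (hd _ m) (closed_and (closed_all fun i => hd _ _)
      (closed_and (isClosed_le (by fun_prop) (by fun_prop))
        (isClosed_le (by fun_prop) (by fun_prop)))))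
  · exact closed_and (hT _ _) (closed_and (h _).zero (hd _ _))
  · obtain ⟨m, k, a⟩ := p
    have hm : ∀ (x : X) (α : Fin d →₀ ℕ), 1 ≤ (j : ℝ) * MvPolynomial.coeff α (Q x sI) ^ 2 →
        α ∈ mons d D := fun x α hα => support_subset_mons ((h _).deg x)
      (MvPolynomial.mem_support_iff.2 fun e => by rw [e] at hα; norm_num at hα)
    have hI : IsClosed {x | Iso2 (Q x) k} := by
      refine closed_and (closed_GC h) (closed_and ((h _).tdeg k)
        (closed_and (closed_all fun i => (h _).tdeg _) (closed_all fun z => ?_)))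
      have hz : ∀ a k, Continuous fun x => co (Q x a) z k :=
        fun a k => (h a).cco continuous_const k
      exact isClosed_eq (by fun_prop) (by fun_prop)
    have hA : IsClosed {x | ∃ α : Fin d →₀ ℕ, α.degree = k ∧
        1 ≤ (j : ℝ) * MvPolynomial.coeff α (Q x sI) ^ 2} :=
      closed_ex (mons d D).finite_toSet
        (fun α => closed_and isClosed_const (isClosed_le continuous_const
          (continuous_const.mul (((h _).cf α).pow 2)))) fun α x hx => hm x α hx.2
    have h1 : IsClosed {x | H1 m k j (w x) (Q x)} :=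
      closed_and (h _).zero (closed_and isClosed_const (isClosed_le (by fun_prop) (by fun_prop)))
    have h2 : IsClosed {x | HG m k j (w x) (Q x)} :=
      closed_and (closed_GC h) (closed_and isClosed_const (closed_and (hd _ k)
        (closed_and (isClosed_le (by fun_prop) (by fun_prop)) (closed_or isClosed_const
          (closed_or (isClosed_le (by fun_prop) (by fun_prop)) (closed_and hI hA))))))
    exact closed_and (hT _ _) (closed_or h1 h2)

open CloA in
theorem sCloN : SCloN := by
  intro d n u D K j c
  let Y : Type := (E d × E d) × (Ix n → mons d D → Icc (-1 : ℝ) 1)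
  have hF : ∀ a, CloA.Fam D fun y : Y => mkP D (y.2 a) := fun a => ⟨fun y => deg_mkP _, fun α => by
    simp only [coeff_mkP]
    split_ifs
    · exact continuous_subtype_val.comp ((continuous_apply _).comp
        ((continuous_apply a).comp continuous_snd))
    · exact continuous_const⟩
  have hT : IsClosed {y : Y | ‖y.1.1‖ ≤ j ∧ (∀ τ : ℝ, 0 < τ → j * τ ≤ 1 →
      Thin (badS u (fun a => mkP D (y.2 a)) (j * τ ^ K)) y.1.1 τ) ∧
      Phi c j y.1.2 fun a => mkP D (y.2 a)} :=
    closed_and (isClosed_le (by fun_prop) continuous_const) (closed_and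
      (closed_all fun τ => closed_all fun _ => closed_all fun _ =>
        closed_thin hF (by fun_prop) u _ τ) (closed_Phi hF (by fun_prop) c j))
  convert isClosedMap_fst_of_compactSpace _ hT using 1
  ext x
  constructor
  · rintro ⟨h1, Q, hQ, h2⟩
    choose e he using fun a => exists_mkP (hQ.deg a) (hQ.cf a)
    obtain rfl : (fun a => mkP D (e a)) = Q := funext he
    exact ⟨(x, e), ⟨h1, hQ.thin, h2⟩, rfl⟩
  · rintro ⟨y, ⟨h1, h2, h3⟩, rfl⟩
    refine ⟨h1, _, ⟨fun a => deg_mkP _, fun a α => ?_, h2⟩, h3⟩
    rw [coeff_mkP]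
    split_ifs
    · exact abs_le.2 (y.2 a _).2
    · simp

end Pool.Agent.MP_66cee2_co.AN
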