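import Pool.Agent.MP_66cee2_co.D.SpecA

/-
The dichotomy for every target dimension: labels at infinity on one line.
-/

namespace Pool.Agent.MP_66cee2_co.AN

open MeasureTheory Set Filter Metric Topology Polynomial Pool.Agent.MP_66cee2_co.X
  Pool.Agent.MP_66cee2_co.XI Pool.Agent.MP_66cee2_co.D

section defs

variable {d n : ℕ}

/-- the last coordinate. -/
abbrev tI {n : ℕ} : Ix n := Sum.inr false

/-- slope of length less than one. -/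
def CA (m j : ℕ) (w : E d) (Q : Ix n → MP d) : Prop :=
  GC Q ∧ DegL (Q sI) w m ∧ (∀ i, DegL (Q (Sum.inl i)) w (m + 1)) ∧
    1 ≤ (j : ℝ) * co (Q sI) w m ^ 2 ∧
    1 ≤ (j : ℝ) * (co (Q sI) w m ^ 2 - ∑ i, co (Q (Sum.inl i)) w (m + 1) ^ 2)

/-- the slope. -/
noncomputable def sl (m : ℕ) (w : E d) (Q : Ix n → MP d) (i : Fin n) : ℝ :=
  slp (ln (Q (Sum.inl i)) 0 w) (ln (Q sI) 0 w) m

/-- the offset. -/
noncomputable def off (m : ℕ) (w : E d) (Q : Ix n → MP d) (i : Fin n) : ℝ :=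
  ofs (ln (Q (Sum.inl i)) 0 w) (ln (Q sI) 0 w) m

/-- the label of the first class. -/
noncomputable def lA (m : ℕ) (w : E d) (Q : Ix n → MP d) : Ix n → ℝ :=
  Sum.elim (off m w Q) fun b =>
    cond b 1 ((1 - ∑ i, sl m w Q i ^ 2) / 2 - ∑ i, off m w Q i ^ 2)

/-- the Euclidean part has degree `m` on the line. -/
def Top (m : ℕ) (a : Fin n) (j : ℕ) (w : E d) (Q : Ix n → MP d) : Prop :=
  (∀ i, DegL (Q (Sum.inl i)) w m) ∧ 1 ≤ (j : ℝ) * co (Q (Sum.inl a)) w m ^ 2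

/-- hyperplanes with a limit. -/
def CT (m : ℕ) (a : Fin n) (j : ℕ) (w : E d) (Q : Ix n → MP d) : Prop :=
  Top m a j w Q ∧ Q sI = 0 ∧ DegL (Q tI) w m

/-- the label of the second class. -/
noncomputable def lT (m : ℕ) (a : Fin n) (w : E d) (Q : Ix n → MP d) : Ix n → ℝ :=
  fun b => (co (Q (Sum.inl a)) w m)⁻¹ * co (Q b) w m

/-- hyperplanes that escape. -/
def H1 (m k j : ℕ) (w : E d) (Q : Ix n → MP d) : Prop :=
  Q sI = 0 ∧ m < k ∧ 1 ≤ (j : ℝ) * co (Q tI) w k ^ 2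

/-- fast points. -/
def HG (m k j : ℕ) (w : E d) (Q : Ix n → MP d) : Prop :=
  GC Q ∧ k < m ∧ DegL (Q sI) w k ∧ 1 ≤ (j : ℝ) * co (Q sI) w k ^ 2 ∧
    (k + 2 ≤ m ∨
      1 ≤ (j : ℝ) * (∑ i, co (Q (Sum.inl i)) w (k + 1) ^ 2 - co (Q sI) w k ^ 2) ∨
      (Iso2 Q k ∧ ∃ α : Fin d →₀ ℕ, α.degree = k ∧
        1 ≤ (j : ℝ) * MvPolynomial.coeff α (Q sI) ^ 2))

/-- the third class. -/
def CH (m k : ℕ) (a : Fin n) (j : ℕ) (w : E d) (Q : Ix n → MP d) : Prop :=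
  Top m a j w Q ∧ (H1 m k j w Q ∨ HG m k j w Q)

/-- the label of the third class. -/
noncomputable def lH (m : ℕ) (a : Fin n) (w : E d) (Q : Ix n → MP d) : Ix n → ℝ :=
  Sum.elim (fun i => (co (Q (Sum.inl a)) w m)⁻¹ * co (Q (Sum.inl i)) w m) fun _ => 0

/-- indices of the classes. -/
abbrev Io (n : ℕ) : Type := ℕ ⊕ (ℕ × Fin n) ⊕ (ℕ × ℕ × Fin n)

/-- the classes. -/
def Phi (c : Io n) (j : ℕ) (w : E d) (Q : Ix n → MP d) : Prop :=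
  Sum.elim (fun m => CA m j w Q)
    (Sum.elim (fun p : ℕ × Fin n => CT p.1 p.2 j w Q)
      fun p : ℕ × ℕ × Fin n => CH p.1 p.2.1 p.2.2 j w Q) c

/-- the labels. -/
noncomputable def lab (c : Io n) (w : E d) (Q : Ix n → MP d) : Ix n → ℝ :=
  Sum.elim (fun m => lA m w Q)
    (Sum.elim (fun p : ℕ × Fin n => lT p.1 p.2 w Q)
      fun p : ℕ × ℕ × Fin n => lH p.1 p.2.2 w Q) c

/-- one variable form of an edge between a hyperplane and a point. -/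
def EGr (P P' : Fin n → ℝ[X]) (t q' : ℝ[X]) : Prop :=
  ∀ s s' : ℝ, (s' = s + 1 ∨ s' = s - 1) →
    2 * ∑ i, (P i).eval s * (P' i).eval s' + t.eval s * q'.eval s' = 0

/-- the point lies in pieces of one class at every level. -/
def Gd (u : E d → Ix n → ℝ) (w x : E d) : Prop :=
  ∃ (D : ℕ) (c : Io n), ∀ K : ℕ, ∃ j : ℕ, 1 ≤ j ∧ x ∈ Pc u D K j (Phi c j w)

/-- the estimate on a piece. -/
def HolS (u : E d → Ix n → ℝ) (c : Io n) : Prop :=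
  ∀ (D p j K : ℕ) (w : E d), 1 ≤ p → 1 ≤ j → 2 * D + p ≤ K → ‖w‖ = 1 →
    ∃ C r : ℝ, 0 ≤ C ∧ 0 < r ∧ ∀ x y Q Q', Adm u D K j x Q → Adm u D K j y Q' → ‖x‖ ≤ j →
      ‖x - y‖ ≤ r → Phi c j w Q → Phi c j w Q' → ‖lab c w Q - lab c w Q'‖ ≤ C * ‖x - y‖ ^ p

end defs

/-- row EG1. -/
def SEG1 : Prop :=
  ∀ (n : ℕ) (P P' : Fin n → ℝ[X]) (t q' : ℝ[X]) (m k : ℕ), EGr P P' t q' →
    (∀ i, (P i).natDegree ≤ m) → q'.natDegree ≤ k → q'.coeff k ≠ 0 →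
    (∀ i, (P' i).natDegree ≤ k + 1) →
    ∀ N, m ≤ N → t.coeff N = -2 * ∑ i, (P i).coeff N * ofs (P' i) q' k

/-- row EG2. -/
def SEG2 : Prop :=
  ∀ (n : ℕ) (P P' : Fin n → ℝ[X]) (t q' : ℝ[X]) (m k m' : ℕ), EGr P P' t q' →
    (∀ i, (P i).natDegree ≤ m) → q'.natDegree ≤ k → q'.coeff k ≠ 0 → k < m' →
    (∀ i, (P' i).natDegree ≤ m') → ∑ i, (P i).coeff m * (P' i).coeff m' = 0

/-- row GG: edges between two points. -/
def SGG : Prop :=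
  ∀ (d n : ℕ) (w : E d) (Q Q' : Ix n → MP d) (j j' : ℕ), ‖w‖ = 1 → EdgeId Q Q' →
    (∀ m m', CA m j w Q → CA m' j' w Q' → lz (lA m w Q) (lA m' w Q') = 0) ∧
    (∀ m m' k' a', CA m j w Q → Top m' a' j' w Q' → ¬ HG m' k' j' w Q') ∧
    ∀ m k a m' k' a', Top m a j w Q → HG m k j w Q → Top m' a' j' w Q' → HG m' k' j' w Q' →
      Cl2 j Q ∧ Cl2 j' Q'

/-- row EP: edges that start at a hyperplane. -/
def SEP : Prop :=
  ∀ (d n : ℕ) (w : E d) (Q Q' : Ix n → MP d) (j' m : ℕ), ‖w‖ = 1 → EdgeId Q Q' → Q sI = 0 →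
    (∀ i, DegL (Q (Sum.inl i)) w m) →
    (∀ m', CA m' j' w Q' → ∀ N, m ≤ N →
      co (Q tI) w N = -2 * ∑ i, co (Q (Sum.inl i)) w N * off m' w Q' i) ∧
    ∀ m', (∀ i, DegL (Q' (Sum.inl i)) w m') → (Q' sI = 0 ∨ ∃ k', HG m' k' j' w Q') →
      ∑ i, co (Q (Sum.inl i)) w m * co (Q' (Sum.inl i)) w m' = 0

/-- row Ort: labels are orthogonal on edges. -/
def SOrt : Prop :=
  ∀ (d n : ℕ) (w : E d) (Q Q' : Ix n → MP d) (c c' : Io n) (j j' : ℕ), ‖w‖ = 1 → EdgeId Q Q' →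
    Phi c j w Q → Phi c' j' w Q' → lz (lab c w Q) (lab c' w Q') = 0 ∨ (Cl2 j Q ∧ Cl2 j' Q')

/-- row Pos: labels are positive; classes are monotone. -/
def SPos : Prop :=
  ∀ (d n : ℕ) (w : E d) (Q : Ix n → MP d) (c : Io n) (j : ℕ), Phi c j w Q →
    0 < lz (lab c w Q) (lab c w Q) ∧ (∀ j', j ≤ j' → Phi c j' w Q) ∧
      ∀ j', j ≤ j' → Cl2 j Q → Cl2 j' Q

/-- row Clo: pieces are closed, jointly in the direction. -/
def SCloN : Prop :=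
  ∀ (d n : ℕ) (u : E d → Ix n → ℝ) (D K j : ℕ) (c : Io n),
    IsClosed {x : E d × E d | x.1 ∈ Pc u D K j (Phi c j x.2)}

/-- row Exh: exhaustion by classes. -/
def SExh : Prop :=
  ∀ (d n : ℕ) (Q : Ix n → MP d), 1 ≤ d → TyQ Q →
    ∀ᵐ a : E d, ∃ c : Io n, ∀ᶠ j : ℕ in atTop, Phi c j (‖a‖⁻¹ • a) Q

/-- row HolA. -/
def SHolA : Prop := ∀ (d n : ℕ) (u : E d → Ix n → ℝ) (m : ℕ), UF u → HolS u (Sum.inl m)

/-- row HolT. -/
def SHolT : Prop :=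
  ∀ (d n : ℕ) (u : E d → Ix n → ℝ) (c : (ℕ × Fin n) ⊕ (ℕ × ℕ × Fin n)), UF u → HolS u (Sum.inr c)

/-- row Dir: a good direction. -/
def SDir : Prop :=
  ∀ (d n : ℕ) (P : E d → Matrix (Ix n) (Ix n) ℝ) (u : E d → Ix n → ℝ), 1 ≤ d → JetField P u →
    ∃ w : E d, ‖w‖ = 1 ∧ ∀ᵐ x, Gd u w x

/-- row One: the field on one family of pieces. -/
def SVon : Prop :=
  ∀ (d n : ℕ) (u : E d → Ix n → ℝ) (D : ℕ) (c : Io n) (w : E d), UF u → ‖w‖ = 1 →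
    ∃ V : E d → Ix n → ℝ, Measurable V ∧ ∀ (K j : ℕ) x Q, 2 * D + 1 ≤ K → 1 ≤ j → ‖x‖ ≤ j →
      Adm u D K j x Q → Phi c j w Q → V x = lab c w Q

/-- row Vf: the flat field. -/
def SVfN : Prop :=
  ∀ (d n : ℕ) (u : E d → Ix n → ℝ) (w : E d), UF u → ‖w‖ = 1 → (∀ᵐ x, Gd u w x) →
    ∃ V : E d → Ix n → ℝ, Measurable V ∧
      (∀ᵐ x, ∃ (D : ℕ) (c : Io n), ∀ K : ℕ, ∃ (j : ℕ) (R : Ix n → MP d), 1 ≤ j ∧ ‖x‖ ≤ j ∧
        Adm u D K j x R ∧ Phi c j w R ∧ V x = lab c w R) ∧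
      ∀ᵐ x : E d, ∀ K : ℕ, ∃ C : ℝ, Small fun τ => {η | C * τ ^ K < ‖V (x + η) - V x‖}

/-- row CaseP: an isometry, or no unit pair inside an isometric piece. -/
def SCaseP : Prop :=
  ∀ (d n : ℕ) (P : E d → Matrix (Ix n) (Ix n) ℝ) (u : E d → Ix n → ℝ), 2 ≤ d → Field P →
    JetField P u →
    (∃ g : E d → E n, Iso g ∧ ∀ᵐ x, ∀ a b, P x a b = P x sI sI * lift (g x) a * lift (g x) b) ∨
      ∀ v : E d, ‖v‖ = 1 → ∀ᵐ x : E d, ∀ D j : ℕ, 1 ≤ j →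
        ¬ (x ∈ Pc u D (4 * D + 1) j (Cl2 j) ∧ x + v ∈ Pc u D (4 * D + 1) j (Cl2 j))

/-- the dichotomy in every dimension. -/
def SDichN : Prop :=
  ∀ (d n : ℕ) (P : E d → Matrix (Ix n) (Ix n) ℝ) (u : E d → Ix n → ℝ), 2 ≤ d →
    Field P → JetField P u →
    (∃ g : E d → E n, Iso g ∧ ∀ᵐ x, ∀ a b, P x a b = P x sI sI * lift (g x) a * lift (g x) b) ∨
      ∃ V : E d → Ix n → ℝ, FlatF V

/-- no family, so every unit preserving map is an isometry. -/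
theorem allIso_of (h1 : STr) (h2 : SJ3) (h3 : SDichN) (h4 : SFam) (d n : ℕ) (hd : 3 ≤ d)
    (h5 : ∀ O : (Ix n → ℝ) → Set (E d), ¬ Fam O) : XT.AllIso d n := by
  refine h1 d n hd fun P hP => ?_
  obtain ⟨u, hu⟩ := h2 d n hd P hP
  rcases h3 d n P u (by omega) hP hu with h | ⟨V, hV⟩
  · exact h
  · obtain ⟨O, hO⟩ := h4 d n V hd hV
    exact absurd hO (h5 O)

end Pool.Agent.MP_66cee2_co.AN
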