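import Pool.Agent.MP_66cee2_co.AN.Spec
import Pool.Agent.MP_66cee2_co.D.Vf
import Pool.Agent.MP_66cee2_co.D.PvC

/-
The flat field in every dimension: gluing the fields of the families of pieces.
-/

namespace Pool.Agent.MP_66cee2_co.AN

open MeasureTheory Set Filter Metric Topology Polynomial Pool.Agent.MP_66cee2_co.X
  Pool.Agent.MP_66cee2_co.XI Pool.Agent.MP_66cee2_co.D

theorem sVfN (h2 : SCloN) (h3 : SHolA) (h4 : SHolT) (h5 : SVon) : SVfN := by
  intro d n u w hU hw hae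
  have hcl : ∀ (D K j : ℕ) (c : Io n), IsClosed (Pc u D K j (Phi c j w)) := fun D K j c =>
    (h2 d n u D K j c).preimage (f := fun x : E d => (x, w)) (by fun_prop)
  have hest : ∀ c : Io n, HolS u c := fun c => by
    rcases c with m | c
    · exact h3 d n u m hU
    · exact h4 d n u c hU
  choose W hWm hW using fun i : ℕ × Io n => h5 d n u i.1 i.2 w hU hw
  obtain ⟨g, hg, hgS⟩ := Vfx.sel (fun i : ℕ × Io n =>
      ⋂ K : ℕ, ⋃ j : ℕ, ⋃ _ : 1 ≤ j, Pc u i.1 K j (Phi i.2 j w))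
    fun i => MeasurableSet.iInter fun K => MeasurableSet.iUnion fun j =>
      MeasurableSet.iUnion fun _ => (hcl _ _ _ _).measurableSet
  have hin : ∀ x, Gd u w x → ∀ K, ∃ j, 1 ≤ j ∧ x ∈ Pc u (g x).1 K j (Phi (g x).2 j w) := by
    intro x ⟨D, c, h⟩ K
    have := hgS x ⟨(D, c), mem_iInter.2 fun K => by
      obtain ⟨j, hj, hx⟩ := h K
      exact mem_iUnion₂.2 ⟨j, hj, hx⟩⟩
    obtain ⟨j, hj, hx⟩ := mem_iUnion₂.1 (mem_iInter.1 this K)
    exact ⟨j, hj, hx⟩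
  refine ⟨fun x => W (g x) x, Vfx.glue hg hWm, ?_, ?_⟩
  · filter_upwards [hae] with x hx
    refine ⟨(g x).1, (g x).2, fun K => ?_⟩
    obtain ⟨j, hj, hxn, R, hR, hP⟩ := hin x hx (max K (2 * (g x).1 + 1))
    exact ⟨j, R, hj, hxn, PvCx.adm u _ _ _ _ j j x R le_rfl (le_max_left _ _) hj le_rfl hR, hP,
      hW (g x) _ j x R (le_max_right _ _) hj hxn hR hP⟩
  · have hd : ∀ᵐ x : E d, ∀ (i : ℕ × Io n) (K j : ℕ),
        x ∈ {y | g y = i} ∩ Pc u i.1 K j (Phi i.2 j w) →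
          Small fun _ => {η | x + η ∉ {y | g y = i} ∩ Pc u i.1 K j (Phi i.2 j w)} :=
      ae_all_iff.2 fun i => ae_all_iff.2 fun K => ae_all_iff.2 fun j =>
        app_dens d _ ((hg i).inter (hcl _ _ _ _).measurableSet)
    filter_upwards [hae, hd] with x hQ hx K
    obtain ⟨j, hj, hxP⟩ := hin x hQ (2 * (g x).1 + (K + 1))
    obtain ⟨C, r, hC0, hr, hb⟩ := hest (g x).2 (g x).1 (K + 1) j _ w (by omega) hj le_rfl hw
    refine ⟨C, small_iff.2 ((small_iff.1 (hx (g x) _ j ⟨rfl, hxP⟩)).mono ?_)⟩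
    filter_upwards [ev_pos, ev_lt hr, ev_lt one_pos] with τ h0 h1 h2 η hη hbad hmem
    obtain ⟨hxn, Q, hQa, hQp⟩ := hxP
    obtain ⟨hgy, hyn, Q', hQa', hQp'⟩ := hmem
    have hgy' : g (x + η) = g x := hgy
    rw [one_mul, mem_ball_zero_iff] at hη
    have e1 := hW (g x) _ j x Q (by omega) hj hxn hQa hQp
    have e2 := hW (g x) _ j (x + η) Q' (by omega) hj hyn hQa' hQp'
    have hn : ‖x - (x + η)‖ = ‖η‖ := by rw [sub_add_cancel_left, norm_neg]
    have h3 := hb x (x + η) Q Q' hQa hQa' hxn (by rw [hn]; linarith) hQp hQp'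
    rw [hn, ← e1, ← e2, norm_sub_rev] at h3
    have h4 : ‖η‖ ^ (K + 1) ≤ τ ^ K :=
      (pow_le_pow_left₀ (norm_nonneg _) hη.le _).trans
        (pow_le_pow_of_le_one h0.le h2.le (Nat.le_succ K))
    have h5 : C * τ ^ K < ‖W (g (x + η)) (x + η) - W (g x) x‖ := hbad
    rw [hgy'] at h5
    nlinarith [mul_le_mul_of_nonneg_left h4 hC0]

end Pool.Agent.MP_66cee2_co.AN
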