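import Pool.Agent.MP_66cee2_co.AN.Spec
import Pool.Agent.MP_66cee2_co.D.Vone
import Pool.Agent.MP_66cee2_co.D.PvC

/-
The measurable field on one family of pieces, for every target dimension.
-/

namespace Pool.Agent.MP_66cee2_co.AN

open MeasureTheory Set Filter Metric Topology Polynomial Pool.Agent.MP_66cee2_co.X
  Pool.Agent.MP_66cee2_co.XI Pool.Agent.MP_66cee2_co.D

namespace Vonx

variable {d n : ℕ}

theorem hol (h3 : SHolA) (h4 : SHolT) {u : E d → Ix n → ℝ} (hu : UF u) (c : Io n) : HolS u c := by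
  rcases c with m | c
  · exact h3 d n u m hu
  · exact h4 d n u c hu

/-- admissible jets at a point, at some level. -/
def G (u : E d → Ix n → ℝ) (D : ℕ) (c : Io n) (w x : E d) (Q : Ix n → MP d) : Prop :=
  ∃ j : ℕ, 1 ≤ j ∧ ‖x‖ ≤ j ∧ Adm u D (2 * D + 1) j x Q ∧ Phi c j w Q

theorem uniq (h1 : SPos) {u : E d → Ix n → ℝ} {c : Io n} (hH : HolS u c) {D : ℕ} {w : E d}
    (hw : ‖w‖ = 1) {x : E d} {Q Q' : Ix n → MP d} (h : G u D c w x Q) (h' : G u D c w x Q') :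
    lab c w Q = lab c w Q' := by
  obtain ⟨j, hj, hx, hA, hP⟩ := h
  obtain ⟨j', hj', -, hA', hP'⟩ := h'
  have hj1 : 1 ≤ max j j' := le_trans hj (le_max_left _ _)
  obtain ⟨C, r, -, hr, hE⟩ := hH D 1 (max j j') (2 * D + 1) w le_rfl hj1 le_rfl hw
  have hx' : ‖x‖ ≤ ((max j j' : ℕ) : ℝ) :=
    le_trans hx (Nat.cast_le.2 (le_max_left _ _))
  have h2 := hE x x Q Q' (PvCx.adm _ _ _ _ _ _ _ _ _ le_rfl le_rfl hj (le_max_left _ _) hA)
    (PvCx.adm _ _ _ _ _ _ _ _ _ le_rfl le_rfl hj' (le_max_right _ _) hA') hx'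
    (by rw [sub_self, norm_zero]; exact hr.le)
    ((h1 d n w Q c j hP).2.1 _ (le_max_left _ _)) ((h1 d n w Q' c j' hP').2.1 _ (le_max_right _ _))
  rw [sub_self x, norm_zero, pow_one, mul_zero] at h2
  exact sub_eq_zero.1 (norm_le_zero_iff.1 h2)

open Classical in
/-- the field. -/
noncomputable def W (u : E d → Ix n → ℝ) (D : ℕ) (c : Io n) (w x : E d) : Ix n → ℝ :=
  if h : ∃ Q, G u D c w x Q then lab c w h.choose else 0

theorem W_eq (h1 : SPos) {u : E d → Ix n → ℝ} {c : Io n} (hH : HolS u c) {D : ℕ} {w : E d}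
    (hw : ‖w‖ = 1) {x : E d} {Q : Ix n → MP d} (h : G u D c w x Q) :
    W u D c w x = lab c w Q := by
  have h0 : ∃ Q, G u D c w x Q := ⟨Q, h⟩
  unfold W
  rw [dif_pos h0]
  exact uniq h1 hH hw h0.choose_spec h

theorem W_zero {u : E d → Ix n → ℝ} {D : ℕ} {c : Io n} {w x : E d}
    (h : ¬ ∃ Q, G u D c w x Q) : W u D c w x = 0 := by
  unfold W
  rw [dif_neg h]

end Vonx

open Vonx in
/-- the field on one family of pieces. -/
theorem sVon (h1 : SPos) (h2 : SCloN) (h3 : SHolA) (h4 : SHolT) : SVon := by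
  intro d n u D c w hu hw
  have hH := hol h3 h4 hu c
  refine ⟨W u D c w, ?_, ?_⟩
  · refine Vonex.meas_of_pieces (fun j => Pc u D (2 * D + 1) (j + 1) (Phi c (j + 1) w))
      (fun j => ?_) _ (fun j => ?_) (fun x hx => ?_)
    · exact (h2 d n u D (2 * D + 1) (j + 1) c).preimage
        (f := fun x : E d => (x, w)) (continuous_id.prodMk continuous_const)
    · have hj : 1 ≤ j + 1 := Nat.le_add_left 1 j
      obtain ⟨C, r, hC0, hr, hE⟩ := hH D 1 (j + 1) (2 * D + 1) w le_rfl hj le_rfl hw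
      refine Vonex.contOn_of_est _ _ C r hC0 hr ?_
      rintro x ⟨hx, Q, hA, hP⟩ y ⟨hy, Q', hA', hP'⟩ hxy
      have h5 := hE x y Q Q' hA hA' hx hxy hP hP'
      rw [pow_one] at h5
      rw [W_eq h1 hH hw ⟨j + 1, hj, hx, hA, hP⟩, W_eq h1 hH hw ⟨j + 1, hj, hy, hA', hP'⟩]
      exact h5
    · refine W_zero ?_
      rintro ⟨Q, j, hj, hx1, hA, hP⟩
      obtain ⟨k, rfl⟩ : ∃ k, j = k + 1 := ⟨j - 1, by omega⟩
      exact hx (mem_iUnion.2 ⟨k, hx1, Q, hA, hP⟩)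
  · intro K j x Q hK hj hx hA hP
    exact W_eq h1 hH hw ⟨j, hj, hx, PvCx.adm _ _ _ _ _ _ _ _ _ le_rfl hK hj le_rfl hA, hP⟩

end Pool.Agent.MP_66cee2_co.AN
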